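import Pool.Agent.Helper57.QZ.Stmts2

set_option autoImplicit false

namespace Pool.Agent.Helper93.Q2

open MeasureTheory Set Filter Topology Pool.Agent.Helper57.QZ

theorem ke2_rect {a b σ : ℝ} (hab : a ≤ b) (hσ : 0 ≤ σ) (g : ℂ → ℂ) (s : Set ℂ) (hs : s.Countable)
    (hc : ∀ ζ : ℂ, a ≤ ζ.re → ζ.re ≤ b → |ζ.im| ≤ σ → ContinuousAt g ζ)
    (hd : ∀ ζ : ℂ, a ≤ ζ.re → ζ.re ≤ b → |ζ.im| ≤ σ → ζ ∉ s → DifferentiableAt ℂ g ζ) :
    ∫ x in a..b, (g (x - σ * Complex.I) - g (x + σ * Complex.I))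
      = Complex.I * (∫ y in (-σ)..σ, g ((a : ℝ) + y * Complex.I))
        - Complex.I * ∫ y in (-σ)..σ, g ((b : ℝ) + y * Complex.I) := by
  have h := Complex.integral_boundary_rect_eq_zero_of_differentiable_on_off_countable g
    ((a : ℂ) - σ * Complex.I) ((b : ℂ) + σ * Complex.I) s hs
  have e1 : ((a : ℂ) - σ * Complex.I).re = a := by simp
  have e2 : ((a : ℂ) - σ * Complex.I).im = -σ := by simp
  have e3 : ((b : ℂ) + σ * Complex.I).re = b := by simp
  have e4 : ((b : ℂ) + σ * Complex.I).im = σ := by simp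
  rw [e1, e2, e3, e4] at h
  have h' := h (by
    intro ζ hζ
    rw [Complex.mem_reProdIm, Set.uIcc_of_le hab, Set.uIcc_of_le (by linarith)] at hζ
    exact (hc ζ hζ.1.1 hζ.1.2 (abs_le.2 ⟨hζ.2.1, hζ.2.2⟩)).continuousWithinAt) (by
    rintro ζ ⟨hζ, hζs⟩
    rw [Complex.mem_reProdIm, min_eq_left hab, max_eq_right hab, min_eq_left (by linarith),
      max_eq_right (by linarith)] at hζ
    exact hd ζ hζ.1.1.le hζ.1.2.le (abs_le.2 ⟨hζ.2.1.le, hζ.2.2.le⟩) hζs)
  have hi : ∀ τ : ℝ, |τ| ≤ σ → IntervalIntegrable (fun x : ℝ => g (x + τ * Complex.I)) volume a b := by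
    intro τ hτ
    apply ContinuousOn.intervalIntegrable
    rw [Set.uIcc_of_le hab]
    intro x hx
    have h1 : ContinuousAt g (x + τ * Complex.I) := hc _ (by simpa using hx.1) (by simpa using hx.2)
      (by simpa using hτ)
    have h2 : ContinuousAt (fun x : ℝ => (x : ℂ) + τ * Complex.I) x := by fun_prop
    exact (ContinuousAt.comp (f := fun x : ℝ => (x : ℂ) + τ * Complex.I) h1 h2).continuousWithinAt
  have hi1 := hi (-σ) (by rw [abs_neg, abs_of_nonneg hσ])
  have hi2 := hi σ (by rw [abs_of_nonneg hσ])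
  have e5 : ∫ x in a..b, (g (x - σ * Complex.I) - g (x + σ * Complex.I))
      = (∫ x in a..b, g (x + ((-σ : ℝ) : ℂ) * Complex.I)) - ∫ x in a..b, g (x + σ * Complex.I) := by
    rw [← intervalIntegral.integral_sub hi1 hi2]
    apply intervalIntegral.integral_congr
    intro x _
    show g _ - g _ = g _ - g _
    congr 2
    push_cast
    ring
  rw [e5]
  simp only [smul_eq_mul] at h'
  linear_combination h'

theorem ke2_ne_im {x y : ℝ} (hy : y ≠ 0) : ((x : ℂ) + y * Complex.I) ≠ 0 := by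
  intro h
  apply hy
  have := congrArg Complex.im h
  simpa using this

theorem ke2_ne_im' {x y : ℝ} (hy : y ≠ 0) : ((x : ℂ) - y * Complex.I) ≠ 0 := by
  intro h
  apply hy
  have := congrArg Complex.im h
  simpa using this

theorem ke2_ne_re {x y : ℝ} (hx : x ≠ 0) : ((x : ℂ) + y * Complex.I) ≠ 0 := by
  intro h
  apply hx
  have := congrArg Complex.re h
  simpa using this

/-- the integral of `1 / w` over the boundary of a rectangle -/
theorem ke2_inv (a b H : ℝ) (ha : a < 0) (hb : 0 < b) (hH : 0 < H) :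
    (∫ x in a..b, (1 / ((x : ℂ) - H * Complex.I) - 1 / ((x : ℂ) + H * Complex.I))) +
      Complex.I * (∫ y in (-H)..H, 1 / ((b : ℂ) + y * Complex.I)) -
      Complex.I * (∫ y in (-H)..H, 1 / ((a : ℂ) + y * Complex.I)) = 2 * Real.pi * Complex.I := by
  have h1 : (∫ x in a..b, (1 / ((x : ℂ) - H * Complex.I) - 1 / ((x : ℂ) + H * Complex.I))) =
      (Complex.log ((b : ℂ) - H * Complex.I) - Complex.log ((b : ℂ) + H * Complex.I)) -
      (Complex.log ((a : ℂ) - H * Complex.I) - Complex.log ((a : ℂ) + H * Complex.I)) := by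
    apply intervalIntegral.integral_eq_sub_of_hasDerivAt
      (f := fun x : ℝ => Complex.log ((x : ℂ) - H * Complex.I) -
        Complex.log ((x : ℂ) + H * Complex.I))
    · intro x _
      have d1 : HasDerivAt (fun x : ℝ => (x : ℂ) - H * Complex.I) 1 x :=
        (Complex.ofRealCLM.hasDerivAt (x := x)).sub_const _
      have d2 : HasDerivAt (fun x : ℝ => (x : ℂ) + H * Complex.I) 1 x :=
        (Complex.ofRealCLM.hasDerivAt (x := x)).add_const _
      apply HasDerivAt.sub
      · apply d1.clog_real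
        right
        simp [hH.ne']
      · apply d2.clog_real
        right
        simp [hH.ne']
    · apply Continuous.intervalIntegrable
      apply Continuous.sub
      · exact continuous_const.div (by fun_prop) (fun x => ke2_ne_im' hH.ne')
      · exact continuous_const.div (by fun_prop) (fun x => ke2_ne_im hH.ne')
  have h2 : (∫ y in (-H)..H, 1 / ((b : ℂ) + y * Complex.I)) =
      -Complex.I * Complex.log ((b : ℂ) + H * Complex.I) -
        -Complex.I * Complex.log ((b : ℂ) + ((-H : ℝ) : ℂ) * Complex.I) := by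
    apply intervalIntegral.integral_eq_sub_of_hasDerivAt
      (f := fun y : ℝ => -Complex.I * Complex.log ((b : ℂ) + y * Complex.I))
    · intro y _
      have d1 : HasDerivAt (fun y : ℝ => (b : ℂ) + y * Complex.I) Complex.I y := by
        have := ((Complex.ofRealCLM.hasDerivAt (x := y)).mul_const Complex.I).const_add (b : ℂ)
        simpa using this
      have d2 := (d1.clog_real (by left; simpa using hb)).const_mul (-Complex.I)
      have e : -Complex.I * (Complex.I / ((b : ℂ) + y * Complex.I)) =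
          1 / ((b : ℂ) + y * Complex.I) := by
        rw [← mul_div_assoc, neg_mul, Complex.I_mul_I, neg_neg]
      rw [e] at d2
      exact d2
    · apply Continuous.intervalIntegrable
      exact continuous_const.div (by fun_prop) (fun y => ke2_ne_re hb.ne')
  have h3 : (∫ y in (-H)..H, 1 / ((a : ℂ) + y * Complex.I)) =
      -Complex.I * Complex.log (-((a : ℂ) + H * Complex.I)) -
        -Complex.I * Complex.log (-((a : ℂ) + ((-H : ℝ) : ℂ) * Complex.I)) := by
    apply intervalIntegral.integral_eq_sub_of_hasDerivAt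
      (f := fun y : ℝ => -Complex.I * Complex.log (-((a : ℂ) + y * Complex.I)))
    · intro y _
      have d1 : HasDerivAt (fun y : ℝ => -((a : ℂ) + y * Complex.I)) (-Complex.I) y := by
        have d0 : HasDerivAt (fun y : ℝ => (a : ℂ) + y * Complex.I) Complex.I y := by
          have := ((Complex.ofRealCLM.hasDerivAt (x := y)).mul_const Complex.I).const_add (a : ℂ)
          simpa using this
        exact d0.neg
      have d2 := (d1.clog_real (by left; simpa using ha)).const_mul (-Complex.I)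
      have e : -Complex.I * (-Complex.I / -((a : ℂ) + y * Complex.I)) =
          1 / ((a : ℂ) + y * Complex.I) := by
        rw [neg_div_neg_eq, ← mul_div_assoc, neg_mul, Complex.I_mul_I, neg_neg]
      rw [e] at d2
      exact d2
    · apply Continuous.intervalIntegrable
      exact continuous_const.div (by fun_prop) (fun y => ke2_ne_re ha.ne)
  have h4 : Complex.log ((a : ℂ) + H * Complex.I) =
      Complex.log (-((a : ℂ) + H * Complex.I)) + Real.pi * Complex.I := by
    have hz : 0 < ((a : ℂ) + H * Complex.I).im := by simpa using hH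
    unfold Complex.log
    rw [norm_neg, Complex.arg_neg_eq_arg_sub_pi_of_im_pos hz]
    push_cast
    ring
  have h5 : Complex.log ((a : ℂ) - H * Complex.I) =
      Complex.log (-((a : ℂ) - H * Complex.I)) - Real.pi * Complex.I := by
    have hz : ((a : ℂ) - H * Complex.I).im < 0 := by simpa using hH
    unfold Complex.log
    rw [norm_neg, Complex.arg_neg_eq_arg_add_pi_of_im_neg hz]
    push_cast
    ring
  have e1 : (b : ℂ) + ((-H : ℝ) : ℂ) * Complex.I = (b : ℂ) - H * Complex.I := by push_cast; ring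
  have e2 : (a : ℂ) + ((-H : ℝ) : ℂ) * Complex.I = (a : ℂ) - H * Complex.I := by push_cast; ring
  rw [h1, h2, h3, e1, e2, h4, h5]
  have hI := Complex.I_mul_I
  linear_combination (-(Complex.log ((b : ℂ) + H * Complex.I)) +
    Complex.log ((b : ℂ) - H * Complex.I) + Complex.log (-((a : ℂ) + H * Complex.I)) -
    Complex.log (-((a : ℂ) - H * Complex.I))) * hI

/-- Cauchy's formula on a rectangle -/
theorem ke2_cauchy (a b H : ℝ) (ha : a < 0) (hb : 0 < b) (hH : 0 < H) (g : ℂ → ℂ)
    (hd : ∀ ζ : ℂ, a ≤ ζ.re → ζ.re ≤ b → |ζ.im| ≤ H → DifferentiableAt ℂ g ζ) :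
    2 * Real.pi * Complex.I * g 0 =
      (∫ x in a..b, (g ((x : ℂ) - H * Complex.I) / ((x : ℂ) - H * Complex.I) -
        g ((x : ℂ) + H * Complex.I) / ((x : ℂ) + H * Complex.I))) +
      Complex.I * (∫ y in (-H)..H, g ((b : ℂ) + y * Complex.I) / ((b : ℂ) + y * Complex.I)) -
      Complex.I * (∫ y in (-H)..H, g ((a : ℂ) + y * Complex.I) / ((a : ℂ) + y * Complex.I)) := by
  have hab : a ≤ b := by linarith
  have hd0 : DifferentiableAt ℂ g 0 := hd 0 (by simpa using ha.le) (by simpa using hb.le)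
    (by simpa using hH.le)
  have hq : ∀ w : ℂ, w ≠ 0 → dslope g 0 w = g w / w - g 0 * (1 / w) := by
    intro w hw
    rw [dslope_of_ne _ hw, slope_def_field]
    rw [sub_zero]
    ring
  have hr := ke2_rect hab hH.le (dslope g 0) {0} (countable_singleton 0)
    (by
      intro ζ h1 h2 h3
      by_cases h : ζ = 0
      · rw [h]
        exact continuousAt_dslope_same.2 hd0
      · exact (continuousAt_dslope_of_ne h).2 (hd ζ h1 h2 h3).continuousAt)
    (by
      intro ζ h1 h2 h3 h
      exact (differentiableAt_dslope_of_ne h).2 (hd ζ h1 h2 h3))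
  have hcur : ∀ (c : ℝ → ℂ) (u v : ℝ), Continuous c → (∀ x ∈ uIcc u v, a ≤ (c x).re ∧
      (c x).re ≤ b ∧ |(c x).im| ≤ H ∧ c x ≠ 0) →
      IntervalIntegrable (fun x => g (c x) / c x) volume u v := by
    intro c u v hc h
    apply ContinuousOn.intervalIntegrable
    intro x hx
    obtain ⟨h1, h2, h3, h4⟩ := h x hx
    have k1 : ContinuousAt (fun x => g (c x)) x :=
      ContinuousAt.comp (f := c) (hd _ h1 h2 h3).continuousAt hc.continuousAt
    exact (k1.div hc.continuousAt h4).continuousWithinAt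
  -- the four sides
  have c1 : IntervalIntegrable (fun x : ℝ => g ((x : ℂ) - H * Complex.I) /
      ((x : ℂ) - H * Complex.I)) volume a b := by
    apply hcur (fun x : ℝ => (x : ℂ) - H * Complex.I) a b (by fun_prop)
    intro x hx
    rw [uIcc_of_le hab] at hx
    refine ⟨by simpa using hx.1, by simpa using hx.2, ?_, ke2_ne_im' hH.ne'⟩
    simp [abs_of_pos hH]
  have c2 : IntervalIntegrable (fun x : ℝ => g ((x : ℂ) + H * Complex.I) /
      ((x : ℂ) + H * Complex.I)) volume a b := by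
    apply hcur (fun x : ℝ => (x : ℂ) + H * Complex.I) a b (by fun_prop)
    intro x hx
    rw [uIcc_of_le hab] at hx
    refine ⟨by simpa using hx.1, by simpa using hx.2, ?_, ke2_ne_im hH.ne'⟩
    simp [abs_of_pos hH]
  have c3 : IntervalIntegrable (fun y : ℝ => g ((b : ℂ) + y * Complex.I) /
      ((b : ℂ) + y * Complex.I)) volume (-H) H := by
    apply hcur (fun y : ℝ => (b : ℂ) + y * Complex.I) (-H) H (by fun_prop)
    intro y hy
    rw [uIcc_of_le (by linarith)] at hy
    refine ⟨by simpa using hab, by simp, ?_, ke2_ne_re hb.ne'⟩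
    simpa using abs_le.2 ⟨hy.1, hy.2⟩
  have c4 : IntervalIntegrable (fun y : ℝ => g ((a : ℂ) + y * Complex.I) /
      ((a : ℂ) + y * Complex.I)) volume (-H) H := by
    apply hcur (fun y : ℝ => (a : ℂ) + y * Complex.I) (-H) H (by fun_prop)
    intro y hy
    rw [uIcc_of_le (by linarith)] at hy
    refine ⟨by simp, by simpa using hab, ?_, ke2_ne_re ha.ne⟩
    simpa using abs_le.2 ⟨hy.1, hy.2⟩
  have i1 : IntervalIntegrable (fun x : ℝ => 1 / ((x : ℂ) - H * Complex.I) -
      1 / ((x : ℂ) + H * Complex.I)) volume a b := by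
    apply Continuous.intervalIntegrable
    apply Continuous.sub
    · exact continuous_const.div (by fun_prop) (fun x => ke2_ne_im' hH.ne')
    · exact continuous_const.div (by fun_prop) (fun x => ke2_ne_im hH.ne')
  have i3 : IntervalIntegrable (fun y : ℝ => 1 / ((b : ℂ) + y * Complex.I)) volume (-H) H := by
    apply Continuous.intervalIntegrable
    exact continuous_const.div (by fun_prop) (fun y => ke2_ne_re hb.ne')
  have i4 : IntervalIntegrable (fun y : ℝ => 1 / ((a : ℂ) + y * Complex.I)) volume (-H) H := by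
    apply Continuous.intervalIntegrable
    exact continuous_const.div (by fun_prop) (fun y => ke2_ne_re ha.ne)
  have s1 : ∫ x in a..b, (dslope g 0 ((x : ℂ) - H * Complex.I) -
      dslope g 0 ((x : ℂ) + H * Complex.I)) =
      (∫ x in a..b, (g ((x : ℂ) - H * Complex.I) / ((x : ℂ) - H * Complex.I) -
        g ((x : ℂ) + H * Complex.I) / ((x : ℂ) + H * Complex.I))) -
      g 0 * ∫ x in a..b, (1 / ((x : ℂ) - H * Complex.I) - 1 / ((x : ℂ) + H * Complex.I)) := by
    rw [← intervalIntegral.integral_const_mul, ← intervalIntegral.integral_sub (c1.sub c2)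
      (i1.const_mul _)]
    apply intervalIntegral.integral_congr
    intro x _
    show dslope g 0 _ - dslope g 0 _ = _
    rw [hq _ (ke2_ne_im' hH.ne'), hq _ (ke2_ne_im hH.ne')]
    ring
  have s3 : ∫ y in (-H)..H, dslope g 0 ((b : ℂ) + y * Complex.I) =
      (∫ y in (-H)..H, g ((b : ℂ) + y * Complex.I) / ((b : ℂ) + y * Complex.I)) -
      g 0 * ∫ y in (-H)..H, 1 / ((b : ℂ) + y * Complex.I) := by
    rw [← intervalIntegral.integral_const_mul, ← intervalIntegral.integral_sub c3
      (i3.const_mul _)]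
    apply intervalIntegral.integral_congr
    intro y _
    exact hq _ (ke2_ne_re hb.ne')
  have s4 : ∫ y in (-H)..H, dslope g 0 ((a : ℂ) + y * Complex.I) =
      (∫ y in (-H)..H, g ((a : ℂ) + y * Complex.I) / ((a : ℂ) + y * Complex.I)) -
      g 0 * ∫ y in (-H)..H, 1 / ((a : ℂ) + y * Complex.I) := by
    rw [← intervalIntegral.integral_const_mul, ← intervalIntegral.integral_sub c4
      (i4.const_mul _)]
    apply intervalIntegral.integral_congr
    intro y _
    exact hq _ (ke2_ne_re ha.ne)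
  have hr' : ∫ x in a..b, (dslope g 0 ((x : ℂ) - H * Complex.I) -
      dslope g 0 ((x : ℂ) + H * Complex.I)) =
      Complex.I * (∫ y in (-H)..H, dslope g 0 ((a : ℂ) + y * Complex.I)) -
      Complex.I * (∫ y in (-H)..H, dslope g 0 ((b : ℂ) + y * Complex.I)) := hr
  rw [s1, s3, s4] at hr'
  have hinv := ke2_inv a b H ha hb hH
  linear_combination (-(g 0)) * hinv - hr'

theorem ke2_norm_exp (w : ℂ) : ‖Complex.exp (w ^ 2)‖ = Real.exp (w.re ^ 2 - w.im ^ 2) := by
  rw [Complex.norm_exp]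
  congr 1
  rw [sq, Complex.mul_re]
  ring

theorem ke2_gauss (H : ℝ) (hH : 0 < H) : ∫ v in (-H)..H, Real.exp (-(v ^ 2)) ≤ 2 := by
  have h1 : Integrable (fun v : ℝ => Real.exp (-(v ^ 2))) := by
    have := integrable_exp_neg_mul_sq (b := 1) (by norm_num)
    simpa using this
  have h2 : ∫ v : ℝ, Real.exp (-(v ^ 2)) = Real.sqrt Real.pi := by
    have := integral_gaussian 1
    simpa using this
  rw [intervalIntegral.integral_of_le (by linarith)]
  have h3 : ∫ v in Ioc (-H) H, Real.exp (-(v ^ 2)) ≤ ∫ v : ℝ, Real.exp (-(v ^ 2)) :=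
    setIntegral_le_integral h1 (Eventually.of_forall fun v => (Real.exp_pos _).le)
  refine h3.trans ?_
  rw [h2]
  have h4 : Real.pi ≤ 2 ^ 2 := by linarith [Real.pi_le_four]
  calc Real.sqrt Real.pi ≤ Real.sqrt (2 ^ 2) := Real.sqrt_le_sqrt h4
    _ = 2 := Real.sqrt_sq (by norm_num)

/-- the series side -/
theorem ke2_series (Y H x t : ℝ) (a : ℕ → ℂ) (hY : 2 ≤ Y) (hH : 1 ≤ H) (hx : x ≤ 4)
    (ha0 : a 0 = 0) (hs : Summable (fun n : ℕ => ‖a n‖ * (n : ℝ) ^ (-(5:ℝ)))) :
    ∑' n : ℕ, a n * (n : ℂ) ^ (-(pt x t)) * KK Y H x n =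
      (1 / (2 * Real.pi) : ℝ) * ∫ v in (-H)..H,
        (∑' n : ℕ, a n * (n : ℂ) ^ (-(pt 5 (t + v)))) *
          ((Y : ℂ) ^ (((5 - x : ℝ) : ℂ) + (v : ℂ) * Complex.I) *
          Complex.exp ((((5 - x : ℝ) : ℂ) + (v : ℂ) * Complex.I) ^ 2) /
          (((5 - x : ℝ) : ℂ) + (v : ℂ) * Complex.I)) := by
  have hY0 : 0 < Y := by linarith
  set b : ℝ := 5 - x with hb
  have hb1 : 1 ≤ b := by rw [hb]; linarith
  set k : ℝ → ℂ := fun v => (Y : ℂ) ^ ((b : ℂ) + (v : ℂ) * Complex.I) *
          Complex.exp (((b : ℂ) + (v : ℂ) * Complex.I) ^ 2) / ((b : ℂ) + (v : ℂ) * Complex.I)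
    with hk
  have hne : ∀ v : ℝ, ((b : ℂ) + (v : ℂ) * Complex.I) ≠ 0 := fun v => ke2_ne_re (by linarith)
  have hkc : Continuous k := by
    rw [hk]
    apply Continuous.div
    · apply Continuous.mul
      · apply Continuous.const_cpow (by fun_prop)
        left
        exact_mod_cast hY0.ne'
      · fun_prop
    · fun_prop
    · exact hne
  have hkn : ∀ v : ℝ, ‖k v‖ ≤ Y ^ b * Real.exp (b ^ 2) := by
    intro v
    rw [hk]
    show ‖(Y : ℂ) ^ ((b : ℂ) + (v : ℂ) * Complex.I) *
          Complex.exp (((b : ℂ) + (v : ℂ) * Complex.I) ^ 2) / ((b : ℂ) + (v : ℂ) * Complex.I)‖ ≤ _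
    rw [norm_div, norm_mul, ke2_norm_exp, Complex.norm_cpow_eq_rpow_re_of_pos hY0]
    have e1 : ((b : ℂ) + (v : ℂ) * Complex.I).re = b := by simp
    have e2 : ((b : ℂ) + (v : ℂ) * Complex.I).im = v := by simp
    rw [e1, e2]
    have h1 : 1 ≤ ‖((b : ℂ) + (v : ℂ) * Complex.I)‖ := by
      have := Complex.abs_re_le_norm ((b : ℂ) + (v : ℂ) * Complex.I)
      rw [e1, abs_of_pos (by linarith)] at this
      linarith
    have h2 : Real.exp (b ^ 2 - v ^ 2) ≤ Real.exp (b ^ 2) :=
      Real.exp_le_exp.2 (by nlinarith [sq_nonneg v])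
    have h3 : 0 < Y ^ b := Real.rpow_pos_of_pos hY0 _
    calc Y ^ b * Real.exp (b ^ 2 - v ^ 2) / ‖((b : ℂ) + (v : ℂ) * Complex.I)‖
        ≤ Y ^ b * Real.exp (b ^ 2 - v ^ 2) / 1 :=
          div_le_div_of_nonneg_left (by positivity) (by norm_num) h1
      _ ≤ Y ^ b * Real.exp (b ^ 2) := by
          rw [div_one]
          exact mul_le_mul_of_nonneg_left h2 h3.le
  -- norm of the terms of the series
  have hnn : ∀ (n : ℕ) (τ : ℝ), ‖a n * (n : ℂ) ^ (-(pt 5 τ))‖ ≤ ‖a n‖ * (n : ℝ) ^ (-(5:ℝ)) := by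
    intro n τ
    rcases Nat.eq_zero_or_pos n with rfl | hn
    · rw [ha0]; simp
    · rw [norm_mul]
      apply mul_le_mul_of_nonneg_left _ (norm_nonneg _)
      have e : ((-(pt 5 τ)) : ℂ).re = -5 := by simp [pt]
      rw [Complex.norm_natCast_cpow_of_pos hn, e]
  set F : ℕ → ℝ → ℂ := fun n v => a n * (n : ℂ) ^ (-(pt 5 (t + v))) * k v with hF
  have hpt : Continuous (fun v : ℝ => -(pt 5 (t + v))) := by
    unfold pt
    fun_prop
  have hFc : ∀ n, Continuous (F n) := by
    intro n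
    rcases Nat.eq_zero_or_pos n with rfl | hn
    · have : F 0 = fun _ => 0 := by
        funext v
        simp [hF, ha0]
      rw [this]
      exact continuous_const
    · apply Continuous.mul _ hkc
      apply Continuous.mul continuous_const
      apply Continuous.const_cpow hpt
      left
      exact_mod_cast hn.ne'
  have hsum := intervalIntegral.hasSum_integral_of_dominated_convergence (μ := volume)
    (a := -H) (b := H) (F := F) (f := fun v => (∑' n : ℕ, a n * (n : ℂ) ^ (-(pt 5 (t + v)))) * k v)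
    (fun n _ => ‖a n‖ * (n : ℝ) ^ (-(5:ℝ)) * (Y ^ b * Real.exp (b ^ 2)))
    (fun n => (hFc n).aestronglyMeasurable)
    (fun n => Eventually.of_forall fun v _ => by
      show ‖a n * (n : ℂ) ^ (-(pt 5 (t + v))) * k v‖ ≤ _
      rw [norm_mul]
      exact mul_le_mul (hnn n _) (hkn v) (norm_nonneg _) (by positivity))
    (Eventually.of_forall fun v _ => hs.mul_right _)
    (by
      apply Continuous.intervalIntegrable
      exact continuous_const)
    (Eventually.of_forall fun v _ => by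
      apply HasSum.mul_right
      exact (Summable.of_norm_bounded hs (fun n => hnn n (t + v))).hasSum)
  rw [← hsum.tsum_eq, ← tsum_mul_left]
  apply tsum_congr
  intro n
  rcases Nat.eq_zero_or_pos n with rfl | hn
  · have : ∀ v, F 0 v = 0 := by
      intro v; simp [hF, ha0]
    simp [this, ha0]
  · have hn0 : (n : ℂ) ≠ 0 := by exact_mod_cast hn.ne'
    have hnr : (0 : ℝ) < n := by exact_mod_cast hn
    unfold KK
    rw [mul_left_comm, ← intervalIntegral.integral_const_mul]
    congr 1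
    apply intervalIntegral.integral_congr
    intro v _
    show a n * (n : ℂ) ^ (-(pt x t)) * (((Y / n : ℝ) : ℂ) ^ ((b : ℂ) + (v : ℂ) * Complex.I) *
      Complex.exp (((b : ℂ) + (v : ℂ) * Complex.I) ^ 2) / ((b : ℂ) + (v : ℂ) * Complex.I)) =
      a n * (n : ℂ) ^ (-(pt 5 (t + v))) * k v
    have e1 : (Y : ℂ) ^ ((b : ℂ) + (v : ℂ) * Complex.I) =
        ((Y / n : ℝ) : ℂ) ^ ((b : ℂ) + (v : ℂ) * Complex.I) *
          (n : ℂ) ^ ((b : ℂ) + (v : ℂ) * Complex.I) := by
      have h := Complex.mul_cpow_ofReal_nonneg (a := Y / n) (b := n) (by positivity) hnr.le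
        ((b : ℂ) + (v : ℂ) * Complex.I)
      rw [Complex.ofReal_natCast] at h
      rw [← h]
      congr 1
      push_cast
      field_simp
    have e2 : (n : ℂ) ^ (-(pt x t)) = (n : ℂ) ^ (-(pt 5 (t + v))) *
        (n : ℂ) ^ ((b : ℂ) + (v : ℂ) * Complex.I) := by
      rw [← Complex.cpow_add _ _ hn0]
      congr 1
      rw [hb]
      unfold pt
      push_cast
      ring
    rw [hk]
    show _ = a n * (n : ℂ) ^ (-(pt 5 (t + v))) * ((Y : ℂ) ^ ((b : ℂ) + (v : ℂ) * Complex.I) *
          Complex.exp (((b : ℂ) + (v : ℂ) * Complex.I) ^ 2) / ((b : ℂ) + (v : ℂ) * Complex.I))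
    rw [e1, e2]
    ring

theorem st_ke2 : ST_KE2 := by
  intro ε hε
  have hε0 : 0 < ε := hε.1
  refine ⟨Real.exp 16 * (2 / ε) + Real.exp 25 * 10, by positivity, ?_⟩
  intro Y H M x t f a hY hH hx hf ha0 hs hser
  have hY0 : 0 < Y := by linarith
  have hH0 : 0 < H := by linarith
  have hx1 := hx.1
  have hx2 := hx.2
  set α : ℝ := 1 / 2 + ε / 2 - x with hα
  set b : ℝ := 5 - x with hb
  have hα0 : α ≤ -(ε / 2) := by rw [hα]; linarith
  have hα1 : -4 ≤ α := by rw [hα]; linarith
  have hb1 : 1 ≤ b := by rw [hb]; linarith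
  have hb2 : b ≤ 5 := by rw [hb]; linarith [hε.1]
  set g : ℂ → ℂ := fun w => f (pt x t + w) * ((Y : ℂ) ^ w * Complex.exp (w ^ 2)) with hg
  have hre : ∀ w : ℂ, (pt x t + w).re = x + w.re := by intro w; simp [pt]
  have him : ∀ w : ℂ, (pt x t + w).im = t + w.im := by intro w; simp [pt]
  have hin : ∀ w : ℂ, α ≤ w.re → w.re ≤ b → |w.im| ≤ H →
      DifferentiableAt ℂ f (pt x t + w) ∧ ‖f (pt x t + w)‖ ≤ M := by
    intro w h1 h2 h3
    apply hf
    · rw [hre]
      constructor
      · rw [hα] at h1; linarith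
      · rw [hb] at h2; linarith
    · rw [him]
      rw [add_sub_cancel_left]
      exact h3
  have hM : 0 ≤ M := le_trans (norm_nonneg _) (hin 0 (by simp; linarith) (by simp; linarith)
    (by simpa using hH0.le)).2
  have hYc : (Y : ℂ) ≠ 0 := by exact_mod_cast hY0.ne'
  have hgd : ∀ w : ℂ, α ≤ w.re → w.re ≤ b → |w.im| ≤ H → DifferentiableAt ℂ g w := by
    intro w h1 h2 h3
    have k1 : DifferentiableAt ℂ (fun w => f (pt x t + w)) w :=
      DifferentiableAt.comp (f := fun w => pt x t + w) w (hin w h1 h2 h3).1 (by fun_prop)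
    apply k1.mul
    apply DifferentiableAt.mul
    · exact differentiableAt_id.const_cpow (Or.inl hYc)
    · fun_prop
  have hgn : ∀ w : ℂ, α ≤ w.re → w.re ≤ b → |w.im| ≤ H →
      ‖g w‖ ≤ M * (Y ^ w.re * Real.exp (w.re ^ 2 - w.im ^ 2)) := by
    intro w h1 h2 h3
    show ‖f (pt x t + w) * ((Y : ℂ) ^ w * Complex.exp (w ^ 2))‖ ≤ _
    rw [norm_mul, norm_mul, ke2_norm_exp, Complex.norm_cpow_eq_rpow_re_of_pos hY0]
    exact mul_le_mul_of_nonneg_right (hin w h1 h2 h3).2 (by positivity)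
  have hcau := ke2_cauchy α b H (by linarith) (by linarith) hH0 g hgd
  have hg0 : g 0 = f (pt x t) := by
    show f (pt x t + 0) * ((Y : ℂ) ^ (0 : ℂ) * Complex.exp ((0 : ℂ) ^ 2)) = _
    rw [add_zero, Complex.cpow_zero]
    simp
  -- the series side
  have hS := ke2_series Y H x t a hY hH hx2 ha0 hs
  have hS2 : ∫ v in (-H)..H, (∑' n : ℕ, a n * (n : ℂ) ^ (-(pt 5 (t + v)))) *
          ((Y : ℂ) ^ (((5 - x : ℝ) : ℂ) + (v : ℂ) * Complex.I) *
          Complex.exp ((((5 - x : ℝ) : ℂ) + (v : ℂ) * Complex.I) ^ 2) /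
          (((5 - x : ℝ) : ℂ) + (v : ℂ) * Complex.I)) =
      ∫ y in (-H)..H, g ((b : ℂ) + y * Complex.I) / ((b : ℂ) + y * Complex.I) := by
    apply intervalIntegral.integral_congr
    intro v _
    show (∑' n : ℕ, a n * (n : ℂ) ^ (-(pt 5 (t + v)))) *
          ((Y : ℂ) ^ ((b : ℂ) + (v : ℂ) * Complex.I) *
          Complex.exp (((b : ℂ) + (v : ℂ) * Complex.I) ^ 2) / ((b : ℂ) + (v : ℂ) * Complex.I)) =
      f (pt x t + ((b : ℂ) + v * Complex.I)) * ((Y : ℂ) ^ ((b : ℂ) + (v : ℂ) * Complex.I) *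
        Complex.exp (((b : ℂ) + (v : ℂ) * Complex.I) ^ 2)) / ((b : ℂ) + v * Complex.I)
    rw [← hser (t + v)]
    have e : pt 5 (t + v) = pt x t + ((b : ℂ) + v * Complex.I) := by
      rw [hb]; unfold pt; push_cast; ring
    rw [e]
    ring
  rw [hS2] at hS
  set P : ℂ := ∫ x in α..b, (g ((x : ℂ) - H * Complex.I) / ((x : ℂ) - H * Complex.I) -
        g ((x : ℂ) + H * Complex.I) / ((x : ℂ) + H * Complex.I)) with hP
  set B : ℂ := ∫ y in (-H)..H, g ((b : ℂ) + y * Complex.I) / ((b : ℂ) + y * Complex.I) with hB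
  set A : ℂ := ∫ y in (-H)..H, g ((α : ℂ) + y * Complex.I) / ((α : ℂ) + y * Complex.I) with hA
  have hpi : (Real.pi : ℂ) ≠ 0 := by exact_mod_cast Real.pi_ne_zero
  have hdiff : f (pt x t) - ∑' n : ℕ, a n * (n : ℂ) ^ (-(pt x t)) * KK Y H x n =
      (P - Complex.I * A) / (2 * Real.pi * Complex.I) := by
    rw [hS, ← hg0]
    have h1 : g 0 = (P + Complex.I * B - Complex.I * A) / (2 * Real.pi * Complex.I) := by
      rw [eq_div_iff (mul_ne_zero (mul_ne_zero two_ne_zero hpi) Complex.I_ne_zero)]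
      linear_combination hcau
    rw [h1]
    push_cast
    field_simp
    ring
  have hAn : ‖A‖ ≤ 2 * (M * (Y ^ (-(ε / 2)) * Real.exp 16) * (2 / ε)) := by
    have h1 : ∀ v ∈ Ioc (-H) H, ‖g ((α : ℂ) + v * Complex.I) / ((α : ℂ) + v * Complex.I)‖ ≤
        M * (Y ^ (-(ε / 2)) * Real.exp 16) * (2 / ε) * Real.exp (-(v ^ 2)) := by
      intro v hv
      have e1 : ((α : ℂ) + (v : ℂ) * Complex.I).re = α := by simp
      have e2 : ((α : ℂ) + (v : ℂ) * Complex.I).im = v := by simp
      have k1 := hgn ((α : ℂ) + v * Complex.I) (by rw [e1]) (by rw [e1]; linarith)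
        (by rw [e2]; exact abs_le.2 ⟨hv.1.le, hv.2⟩)
      rw [e1, e2] at k1
      have k2 : ε / 2 ≤ ‖((α : ℂ) + (v : ℂ) * Complex.I)‖ := by
        have := Complex.abs_re_le_norm ((α : ℂ) + (v : ℂ) * Complex.I)
        rw [e1, abs_of_neg (by linarith)] at this
        linarith
      have k3 : Y ^ α ≤ Y ^ (-(ε / 2)) :=
        Real.rpow_le_rpow_of_exponent_le (by linarith) hα0
      have k4 : Real.exp (α ^ 2 - v ^ 2) ≤ Real.exp 16 * Real.exp (-(v ^ 2)) := by
        rw [← Real.exp_add]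
        apply Real.exp_le_exp.2
        have : α ^ 2 ≤ 16 := by nlinarith
        linarith
      rw [norm_div, div_le_iff₀ (by linarith)]
      have k5 : M * (Y ^ α * Real.exp (α ^ 2 - v ^ 2)) ≤
          M * (Y ^ (-(ε / 2)) * Real.exp 16) * Real.exp (-(v ^ 2)) := by
        calc M * (Y ^ α * Real.exp (α ^ 2 - v ^ 2)) ≤
            M * (Y ^ (-(ε / 2)) * (Real.exp 16 * Real.exp (-(v ^ 2)))) := by
              apply mul_le_mul_of_nonneg_left _ hM
              exact mul_le_mul k3 k4 (Real.exp_pos _).le (by positivity)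
          _ = _ := by ring
      have k6 : 1 ≤ 2 / ε * ‖((α : ℂ) + (v : ℂ) * Complex.I)‖ := by
        rw [div_mul_eq_mul_div, le_div_iff₀ hε0]
        linarith
      calc ‖g ((α : ℂ) + v * Complex.I)‖ ≤
          M * (Y ^ (-(ε / 2)) * Real.exp 16) * Real.exp (-(v ^ 2)) * 1 := by
            rw [mul_one]; exact k1.trans k5
        _ ≤ M * (Y ^ (-(ε / 2)) * Real.exp 16) * Real.exp (-(v ^ 2)) *
            (2 / ε * ‖((α : ℂ) + (v : ℂ) * Complex.I)‖) :=
            mul_le_mul_of_nonneg_left k6 (by positivity)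
        _ = _ := by ring
    have h2 : IntervalIntegrable (fun v : ℝ =>
        M * (Y ^ (-(ε / 2)) * Real.exp 16) * (2 / ε) * Real.exp (-(v ^ 2))) volume (-H) H := by
      apply Continuous.intervalIntegrable
      fun_prop
    have h3 := intervalIntegral.norm_integral_le_of_norm_le (by linarith : -H ≤ H)
      (Eventually.of_forall h1) h2
    refine h3.trans ?_
    rw [intervalIntegral.integral_const_mul]
    have h4 := ke2_gauss H hH0
    calc M * (Y ^ (-(ε / 2)) * Real.exp 16) * (2 / ε) * ∫ v in (-H)..H, Real.exp (-(v ^ 2))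
        ≤ M * (Y ^ (-(ε / 2)) * Real.exp 16) * (2 / ε) * 2 :=
          mul_le_mul_of_nonneg_left h4 (by positivity)
      _ = _ := by ring
  have hside : ∀ (τ : ℝ) (u : ℝ), |τ| = H → u ∈ Icc α b →
      ‖g ((u : ℂ) + τ * Complex.I) / ((u : ℂ) + τ * Complex.I)‖ ≤
        M * (Y ^ (5:ℝ) * (Real.exp 25 * Real.exp (-(H ^ 2)))) := by
    intro τ u hτ hu
    have e1 : ((u : ℂ) + (τ : ℂ) * Complex.I).re = u := by simp
    have e2 : ((u : ℂ) + (τ : ℂ) * Complex.I).im = τ := by simp
    have k1 := hgn ((u : ℂ) + τ * Complex.I) (by rw [e1]; exact hu.1) (by rw [e1]; exact hu.2)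
        (by rw [e2]; exact hτ.le)
    rw [e1, e2] at k1
    have k2 : 1 ≤ ‖((u : ℂ) + (τ : ℂ) * Complex.I)‖ := by
      have := Complex.abs_im_le_norm ((u : ℂ) + (τ : ℂ) * Complex.I)
      rw [e2, hτ] at this
      linarith
    have k3 : Y ^ u ≤ Y ^ (5:ℝ) :=
      Real.rpow_le_rpow_of_exponent_le (by linarith) (by linarith [hu.2])
    have k4 : Real.exp (u ^ 2 - τ ^ 2) ≤ Real.exp 25 * Real.exp (-(H ^ 2)) := by
      rw [← Real.exp_add]
      apply Real.exp_le_exp.2
      have h1 : u ^ 2 ≤ 25 := by nlinarith [hu.1, hu.2]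
      have h2 : τ ^ 2 = H ^ 2 := by rw [← hτ, sq_abs]
      linarith
    rw [norm_div]
    calc ‖g ((u : ℂ) + τ * Complex.I)‖ / ‖((u : ℂ) + (τ : ℂ) * Complex.I)‖ ≤
        ‖g ((u : ℂ) + τ * Complex.I)‖ / 1 :=
          div_le_div_of_nonneg_left (norm_nonneg _) (by norm_num) k2
      _ ≤ M * (Y ^ (5:ℝ) * (Real.exp 25 * Real.exp (-(H ^ 2)))) := by
          rw [div_one]
          refine k1.trans (mul_le_mul_of_nonneg_left ?_ hM)
          exact mul_le_mul k3 k4 (Real.exp_pos _).le (by positivity)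
  have hPn : ‖P‖ ≤ 2 * (M * (Y ^ (5:ℝ) * (Real.exp 25 * Real.exp (-(H ^ 2))))) * 9 := by
    have h1 : ‖P‖ ≤ (2 * (M * (Y ^ (5:ℝ) * (Real.exp 25 * Real.exp (-(H ^ 2)))))) * |b - α| := by
      apply intervalIntegral.norm_integral_le_of_norm_le_const
      intro u hu
      rw [uIoc_of_le (by linarith)] at hu
      have hu' : u ∈ Icc α b := ⟨hu.1.le, hu.2⟩
      have k1 := hside (-H) u (by rw [abs_neg, abs_of_pos hH0]) hu'
      have k2 := hside H u (abs_of_pos hH0) hu'
      have e : (u : ℂ) + ((-H : ℝ) : ℂ) * Complex.I = (u : ℂ) - H * Complex.I := by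
        push_cast; ring
      rw [e] at k1
      refine (norm_sub_le _ _).trans ?_
      linarith
    refine h1.trans (mul_le_mul_of_nonneg_left ?_ (by positivity))
    rw [abs_of_pos (by linarith)]
    linarith
  rw [hdiff, norm_div]
  have hden : ‖(2 * Real.pi * Complex.I : ℂ)‖ = 2 * Real.pi := by
    rw [norm_mul, norm_mul, Complex.norm_I, Complex.norm_real, Real.norm_eq_abs,
      abs_of_pos Real.pi_pos]
    norm_num
  rw [hden, div_le_iff₀ (by positivity)]
  have hPA : ‖P - Complex.I * A‖ ≤ ‖P‖ + ‖A‖ := by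
    refine (norm_sub_le _ _).trans ?_
    rw [norm_mul, Complex.norm_I, one_mul]
  set U : ℝ := Y ^ (-(ε / 2)) with hU
  set V : ℝ := Y ^ (5:ℝ) * Real.exp (-(H ^ 2)) with hV
  have hU0 : 0 < U := Real.rpow_pos_of_pos hY0 _
  have hV0 : 0 < V := by positivity
  have hp3 : 3 < Real.pi := Real.pi_gt_three
  have e1 : 2 * (M * (U * Real.exp 16) * (2 / ε)) = 2 * (Real.exp 16 * (2 / ε)) * (M * U) := by
    ring
  have e2 : 2 * (M * (Y ^ (5:ℝ) * (Real.exp 25 * Real.exp (-(H ^ 2))))) * 9 =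
      18 * Real.exp 25 * (M * V) := by rw [hV]; ring
  rw [e1] at hAn
  rw [e2] at hPn
  have m1 : 0 ≤ M * U := by positivity
  have m2 : 0 ≤ M * V := by positivity
  set E1 : ℝ := Real.exp 16 * (2 / ε) with hE1
  set E2 : ℝ := Real.exp 25 with hE2
  have hE10 : 0 < E1 := by positivity
  have hE20 : 0 < E2 := Real.exp_pos _
  have big : (E1 + E2 * 10) * M * (U + V) * 6 ≤
      (E1 + E2 * 10) * M * (U + V) * (2 * Real.pi) := by
    apply mul_le_mul_of_nonneg_left (by linarith)
    positivity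
  refine (hPA.trans (add_le_add hPn hAn)).trans (le_trans ?_ big)
  have n1 : 0 ≤ E1 * (M * U) := by positivity
  have n2 : 0 ≤ E2 * (M * V) := by positivity
  have n3 : 0 ≤ E1 * (M * V) := by positivity
  have n4 : 0 ≤ E2 * (M * U) := by positivity
  nlinarith

end Pool.Agent.Helper93.Q2
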